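import Pool.Agent.Helper95.PN.Stmts
import Pool.Agent.Helper7.PW.INL

set_option autoImplicit false

/-!
# The inner cut off of a molecule
-/

namespace Pool.Agent.Helper95.PW

open MeasureTheory Filter

theorem INLJ_pot {M : ℕ} (X : Fin M → R3) (Z : Fin M → ℝ) : Measurable (pot X Z) := by
  unfold pot
  exact Finset.measurable_sum _ fun j _ =>
    measurable_const.div (INL_nr.measurable.comp (measurable_id.sub_const (X j)))

theorem INLJ_pot0 {M : ℕ} (X : Fin M → R3) (Z : Fin M → ℝ) (hZ : ∀ j, 0 ≤ Z j) (y : R3) :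
    0 ≤ pot X Z y :=
  Finset.sum_nonneg fun j _ => div_nonneg (hZ j) (INL_nr0 _)

theorem INLJ_att {n M : ℕ} (X : Fin M → R3) (Z : Fin M → ℝ) :
    Measurable (fun x : Cf n => ∑ k, pot X Z (x k)) :=
  Finset.measurable_sum _ fun k _ => (INLJ_pot X Z).comp (measurable_pi_apply k)

theorem INLJ_h2 (hI : ST_INTM) {n M : ℕ} (X : Fin M → R3) (Z : Fin M → ℝ) (E : ℝ) {u : Wf n}
    (hu : Sm u) (s : Fin n → Fin 2) : MemLp (fun x => hmM X Z (u s) x - E * u s x) 2 := by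
  obtain ⟨h1, h2⟩ := hu s
  have m0 : MemLp (u s) 2 := h1.continuous.memLp_of_hasCompactSupport h2
  obtain ⟨_, _, j1, j2⟩ := hI n M X Z (u s) (u s) h1 h2 h1 h2
  have m1 : MemLp (fun x : Cf n => (∑ k, pot X Z (x k)) * u s x) 2 :=
    (memLp_two_iff_integrable_sq ((INLJ_att X Z).aestronglyMeasurable.mul
      h1.continuous.aestronglyMeasurable)).2 j1
  have m2 : MemLp (fun x : Cf n => rep x * u s x) 2 :=
    (memLp_two_iff_integrable_sq (INL_rep.aestronglyMeasurable.mul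
      h1.continuous.aestronglyMeasurable)).2 j2
  have m3 : MemLp (fun x : Cf n => ∑ k, ∑ i, dv k i (dv k i (u s)) x) 2 := by
    refine memLp_finsetSum _ fun k _ => memLp_finsetSum _ fun i _ => ?_
    obtain ⟨a1, a2⟩ := INL_dv k i h1 h2
    obtain ⟨b1, b2⟩ := INL_dv k i a1 a2
    exact b1.continuous.memLp_of_hasCompactSupport b2
  have m4 := ((m3.neg.add m2).sub m1).sub (m0.const_mul E)
  refine m4.congr_norm ?_ (ae_of_all _ fun x => ?_) |> fun h => h
  · exact m4.1.congr (ae_of_all _ fun x => by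
      simp only [Pi.sub_apply, Pi.add_apply, Pi.neg_apply, hmM]; ring)
  · simp only [Pi.sub_apply, Pi.add_apply, Pi.neg_apply, hmM]
    congr 1; ring

theorem INLJ_ind (S : Set R3) (hS : IsClosed S) :
    Measurable (ind S) ∧ (∀ y, 0 ≤ ind S y ∧ ind S y ≤ 1) := by
  classical
  constructor
  · unfold ind
    exact measurable_const.indicator hS.measurableSet
  · intro y
    unfold ind
    rw [Set.indicator_apply]
    split_ifs <;> norm_num

theorem INLJ_one1 {n : ℕ} (S : Set R3) (hS : IsClosed S) {u : Wf n} (hu : Sm u) :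
    one (ind S) u ≤ n * sq u := by
  have h := INL_mono (B := 1) (INLJ_ind S hS).1 (fun y => by
    rw [abs_of_nonneg ((INLJ_ind S hS).2 y).1]; exact ((INLJ_ind S hS).2 y).2)
    (w' := fun _ => 1) measurable_const (fun y => by norm_num)
    (fun y => ((INLJ_ind S hS).2 y).2) hu
  refine h.trans (le_of_eq ?_)
  unfold one sq
  rw [Finset.mul_sum]
  refine Finset.sum_congr rfl fun s _ => ?_
  rw [← integral_const_mul]
  simp

theorem INLJ_grd {g : R3 → ℝ} {K r : ℝ} (hg : Scale g K r) (S : Set R3) (hS : IsClosed S)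
    (h0 : ∀ y, y ∉ S → ∀ i, pd i g y = 0) {n : ℕ} {u : Wf n} (hu : Sm u) :
    one (grd g) u ≤ 3 * K ^ 2 * one (ind S) u := by
  have hpd : ∀ i, Continuous (pd i g) := fun i =>
    (hg.sm.continuous_fderiv (by simp)).clm_apply continuous_const
  have hm : Measurable (grd g) := by
    unfold grd
    exact Finset.measurable_sum _ fun i _ => ((hpd i).measurable.pow_const 2)
  have hb : ∀ y, 0 ≤ grd g y ∧ grd g y ≤ 3 * K ^ 2 := by
    intro y
    constructor
    · exact Finset.sum_nonneg fun i _ => sq_nonneg _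
    · calc grd g y ≤ ∑ _i : Fin 3, K ^ 2 := Finset.sum_le_sum fun i _ =>
            sq_le_sq' (abs_le.1 (hg.d1 i y)).1 (abs_le.1 (hg.d1 i y)).2
        _ = 3 * K ^ 2 := by simp
  have hz : ∀ y, y ∉ S → grd g y = 0 := by
    intro y hy
    unfold grd
    exact Finset.sum_eq_zero fun i _ => by rw [h0 y hy i]; norm_num
  rw [← INL_onec]
  refine INL_mono (B := 3 * K ^ 2) hm (fun y => by rw [abs_of_nonneg (hb y).1]; exact (hb y).2)
    ((INLJ_ind S hS).1.const_mul _) (fun y => ?_) (fun y => ?_) hu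
  · rw [abs_of_nonneg (mul_nonneg (by positivity) ((INLJ_ind S hS).2 y).1)]
    calc 3 * K ^ 2 * ind S y ≤ 3 * K ^ 2 * 1 :=
          mul_le_mul_of_nonneg_left ((INLJ_ind S hS).2 y).2 (by positivity)
      _ = _ := mul_one _
  · by_cases hy : y ∈ S
    · have : ind S y = 1 := by
        unfold ind
        rw [Set.indicator_of_mem hy]
      rw [this, mul_one]
      exact (hb y).2
    · rw [hz y hy]
      exact mul_nonneg (by positivity) ((INLJ_ind S hS).2 y).1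

theorem st_INLJ (h1 : ST_CSQM) (h2 : ST_STB) (h3 : ST_AIDM) (h4 : ST_CIDM) (h5 : ST_BINJ)
    (h7 : ST_ERR) (hI : ST_INTM) (h6 : ST_MORM) : ST_INLJ := by
  obtain ⟨C, hC, hB⟩ := h5
  refine ⟨C + 2, by positivity, ?_⟩
  intro n NN X Z E g K R M S hLow hZ hK hg hR hSc hoff hin
  obtain ⟨z, hz⟩ : ∃ z : ℝ, z = ∑ j, Z j := ⟨_, rfl⟩
  have hz0 : 0 ≤ z := by rw [hz]; exact Finset.sum_nonneg fun j _ => hZ j
  choose Cm hCm hE using fun m => h7 n (g m) (hg m).sm (hg m).cs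
  obtain ⟨C1, hC1, hCle⟩ : ∃ C1 : ℝ, 0 < C1 ∧ ∀ m, Cm m ≤ C1 := by
    refine ⟨Cm 0 + Cm 1 + Cm 2, by linarith [hCm 0, hCm 1, hCm 2], fun m => ?_⟩
    fin_cases m <;> simp <;> linarith [hCm 0, hCm 1, hCm 2]
  obtain ⟨M0, hM0, hMM⟩ : ∃ M0 : ℝ, 0 ≤ M0 ∧ M ≤ M0 := ⟨|M|, abs_nonneg _, le_abs_self _⟩
  obtain ⟨D, hDdef⟩ : ∃ D, D = Real.sqrt (C1 * (2 * M0 + 2)) := ⟨_, rfl⟩
  have hD : 0 ≤ D := by rw [hDdef]; exact Real.sqrt_nonneg _
  obtain ⟨Bm, hBmdef⟩ : ∃ Bm : ℝ, Bm = z * (4 * z * M0 + 8 * Real.sqrt (n * M0)) := ⟨_, rfl⟩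
  have hBm : 0 ≤ Bm := by rw [hBmdef]; positivity
  have hn0 : (0:ℝ) ≤ n := Nat.cast_nonneg _
  refine ⟨3 * K ^ 2 * (2 * n) * (0 + 3 * D) +
    D * (C * K ^ 2 * ((M0 + M0 + M0) / R ^ 2 + 2 * n / R ^ 4) + 2 * (Bm / 4) +
      (0 + 3 * D)) + 4 * D * (C1 * (M0 + 2)) + 1, by positivity, ?_⟩
  intro u hu hA hsq hkin hpair hone hdd hres B1 s0 hB1 hs0 hmor m
  have hh := INLJ_h2 hI X Z E hu
  have ρ0 : 0 ≤ Real.sqrt (resM X Z E u) := Real.sqrt_nonneg _
  have ρ1 : Real.sqrt (resM X Z E u) ≤ 1 := Real.sqrt_le_one.2 hres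
  have hcau : ∀ f : Wf n, Sm f → sq f ≤ C1 * (2 * M0 + 2) →
      |∑ s, ∫ x, f s x * (hmM X Z (u s) x - E * u s x)| ≤ D * Real.sqrt (resM X Z E u) := by
    intro f hf hs
    refine (INL_cauchy hf hh).trans ?_
    rw [hDdef]
    exact mul_le_mul (Real.sqrt_le_sqrt hs) le_rfl (Real.sqrt_nonneg _) (Real.sqrt_nonneg _)
  have sq0 : ∀ v : Wf n, 0 ≤ sq v := fun v =>
    Finset.sum_nonneg fun s _ => integral_nonneg fun x => sq_nonneg _
  have kin0 : 0 ≤ kin u := Finset.sum_nonneg fun k _ => Finset.sum_nonneg fun i _ => sq0 _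
  have dd0 : 0 ≤ dd u := Finset.sum_nonneg fun k _ => Finset.sum_nonneg fun i _ =>
    Finset.sum_nonneg fun l _ => Finset.sum_nonneg fun m _ => sq0 _
  have rep0 : ∀ x : Cf n, 0 ≤ rep x := fun x => Finset.sum_nonneg fun k _ =>
    Finset.sum_nonneg fun l _ => by
      split_ifs
      · exact div_nonneg zero_le_one (INL_nr0 _)
      · exact le_rfl
  have pair0 : 0 ≤ pair u := Finset.sum_nonneg fun s _ => integral_nonneg fun x =>
    mul_nonneg (rep0 x) (sq_nonneg _)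
  have on0 : 0 ≤ one (pot X Z) u := INL_one0 (fun y => INLJ_pot0 X Z hZ y) u
  have ν0 : 0 ≤ one (ind S) u := INL_one0 (fun y => ((INLJ_ind S hSc).2 y).1) u
  have ν1 : one (ind S) u ≤ 2 * n := by
    refine (INLJ_one1 S hSc hu).trans ?_
    nlinarith
  have su0 := sq0 u
  have SF : ∀ m, Sm (fun s => Fg (g m) (u s)) := fun m => (h2 n (g m) u (hg m).sm hu).1
  have SP : ∀ m, Sm (fun s => Pg (g m) (u s)) := fun m => (h2 n (g m) u (hg m).sm hu).2.1
  have AF : ∀ m, Anti (fun s => Fg (g m) (u s)) := fun m =>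
    ((h2 n (g m) u (hg m).sm hu).2.2 hA).1
  have AP : ∀ m, Anti (fun s => Pg (g m) (u s)) := fun m =>
    ((h2 n (g m) u (hg m).sm hu).2.2 hA).2
  have SFF : ∀ m, Sm (fun s => Fg (g m) (Fg (g m) (u s))) := fun m =>
    (h2 n (g m) (fun s => Fg (g m) (u s)) (hg m).sm (SF m)).1
  have SFP : ∀ m, Sm (fun s => Fg (g m) (Pg (g m) (u s))) := fun m =>
    (h2 n (g m) (fun s => Pg (g m) (u s)) (hg m).sm (SP m)).1
  have SPP : ∀ m, Sm (fun s => Pg (g m) (Pg (g m) (u s))) := fun m =>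
    (h2 n (g m) (fun s => Pg (g m) (u s)) (hg m).sm (SP m)).2.1
  have bd : ∀ (m : Fin 3) (y : ℝ), 0 ≤ y → y ≤ 2 * M0 + 2 → Cm m * y ≤ C1 * (2 * M0 + 2) :=
    fun m y hy0 hy => mul_le_mul (hCle m) hy hy0 hC1.le
  have a1 : ∀ m, |∑ s, ∫ x, Fg (g m) (Fg (g m) (u s)) x * (hmM X Z (u s) x - E * u s x)| ≤
      D * Real.sqrt (resM X Z E u) := fun m =>
    hcau _ (SFF m) ((hE m u hu).1.trans (bd m _ su0 (by linarith)))
  have a2 : ∀ m, |∑ s, ∫ x, Fg (g m) (Pg (g m) (u s)) x * (hmM X Z (u s) x - E * u s x)| ≤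
      D * Real.sqrt (resM X Z E u) := fun m =>
    hcau _ (SFP m) ((hE m u hu).2.2.1.trans (bd m _ (by linarith) (by linarith)))
  have a3 : ∀ m, |∑ s, ∫ x, Pg (g m) (Pg (g m) (u s)) x * (hmM X Z (u s) x - E * u s x)| ≤
      D * Real.sqrt (resM X Z E u) := fun m =>
    hcau _ (SPP m) ((hE m u hu).2.2.2.trans (bd m _ (by linarith) (by linarith)))
  have hP0 : sq (fun s => Pg (g m) (u s)) ≤ C1 * (M0 + 2) :=
    (hE m u hu).2.1.trans (mul_le_mul (hCle m) (by linarith) (by linarith) hC1.le)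
  have b0 : ∀ m, 0 ≤ QM X Z (fun s => Pg (g m) (u s)) - E * sq (fun s => Pg (g m) (u s)) :=
    fun m => sub_nonneg.2 (hLow _ (SP m) (AP m))
  obtain ⟨B', hB'def⟩ : ∃ B' : ℝ, B' = min B1 Bm := ⟨_, rfl⟩
  have hB'1 : B' ≤ B1 := by rw [hB'def]; exact min_le_left _ _
  have hB'm : B' ≤ Bm := by rw [hB'def]; exact min_le_right _ _
  have hB'0 : 0 ≤ B' := by rw [hB'def]; exact le_min hB1 hBm
  have hres0 : 0 ≤ Real.sqrt (n * M0) := Real.sqrt_nonneg _
  have hone' : ∀ (j : Fin NN) (s : ℝ), 0 < s → one (fun y => mor s (y - X j)) u ≤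
      4 * z * M0 + 8 * Real.sqrt (n * M0) := by
    intro j s hs
    have k1 := h6 n NN X Z E s (X j) u hZ hs hu
    rw [← hz] at k1
    have k2 : Real.sqrt (n * kin u * resM X Z E u) ≤ Real.sqrt (n * M0) := by
      have hkk : kin u ≤ M0 := hkin.trans hMM
      have hnk : n * kin u ≤ n * M0 := mul_le_mul_of_nonneg_left hkk hn0
      have hnk0 : 0 ≤ n * kin u := mul_nonneg hn0 kin0
      apply Real.sqrt_le_sqrt
      calc n * kin u * resM X Z E u ≤ n * kin u * 1 := mul_le_mul_of_nonneg_left hres hnk0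
        _ ≤ n * M0 := by rw [mul_one]; exact hnk
    have k3 : 4 * z * kin u ≤ 4 * z * M0 :=
      mul_le_mul_of_nonneg_left (hkin.trans hMM) (by positivity)
    linarith
  have hmor' : ∀ s : ℝ, 0 < s → s ≤ s0 →
      ∑ j, Z j * one (fun y => mor s (y - X j)) u ≤ B' := by
    intro s hs hs'
    rw [hB'def]
    refine le_min (hmor s hs hs') ?_
    rw [hBmdef, hz, Finset.sum_mul, ← hz]
    exact Finset.sum_le_sum fun j _ => mul_le_mul_of_nonneg_left (hone' j s hs) (hZ j)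
  have hbin := hB n NN X Z E g K R B' s0 S u hZ hg hR hs0 hSc hoff hin hu hmor'
  have hsing := Finset.single_le_sum (f := fun m => QM X Z (fun s => Pg (g m) (u s)) -
    E * sq (fun s => Pg (g m) (u s))) (fun m _ => b0 m) (Finset.mem_univ m)
  have herr : -(∑ m, ∑ s, ∫ x, Pg (g m) (Pg (g m) (u s)) x * (hmM X Z (u s) x - E * u s x)) ≤
      3 * (D * Real.sqrt (resM X Z E u)) := by
    rw [← Finset.sum_neg_distrib]
    calc ∑ m, -(∑ s, ∫ x, Pg (g m) (Pg (g m) (u s)) x * (hmM X Z (u s) x - E * u s x)) ≤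
        ∑ _m : Fin 3, D * Real.sqrt (resM X Z E u) := Finset.sum_le_sum fun m _ => by
          have := (abs_le.1 (a3 m)).1
          linarith
      _ = _ := by simp
  have hS0 : 0 ≤ (kin u + pair u + one (pot X Z) u) / R ^ 2 + one (ind S) u / R ^ 4 := by
    positivity
  have hS1 : (kin u + pair u + one (pot X Z) u) / R ^ 2 + one (ind S) u / R ^ 4 ≤
      (M0 + M0 + M0) / R ^ 2 + 2 * n / R ^ 4 := by
    have k1 := hkin.trans hMM
    have k2 := hpair.trans hMM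
    have k3 := hone.trans hMM
    gcongr
  have hcs := h1 n NN X Z E (fun s => Fg (g m) (u s)) (fun s => Pg (g m) (u s)) hLow (SF m)
    (AF m) (SP m) (AP m)
  rw [h4 n NN X Z E (g m) u (hg m).sm hu, h3 n NN X Z E (g m) u (hg m).sm hu] at hcs
  have hfin := INL_fin hcs (a1 m) (a2 m)
    ⟨INL_one0 (fun y => Finset.sum_nonneg fun i _ => sq_nonneg _) u,
      INLJ_grd (hg m) S hSc (hoff m) hu⟩
    (C := C) (S := (kin u + pair u + one (pot X Z) u) / R ^ 2 + one (ind S) u / R ^ 4)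
    (X := B' / 4) (q := 0)
    ⟨b0 m, by
      have := hsing.trans hbin
      linarith [this, herr]⟩ ⟨ρ0, ρ1⟩ ⟨sq0 _, hP0⟩ ⟨ν0, ν1⟩ ⟨hS0, hS1⟩
    ⟨by positivity, by linarith⟩ hK hC.le hD le_rfl (X0 := Bm / 4)
  refine hfin.trans ?_
  have hKK : 0 ≤ (C + 2) * K ^ 4 := by positivity
  have g1 : (C + 2) * K ^ 4 * (one (ind S) u *
      ((kin u + pair u + one (pot X Z) u) / R ^ 2 + one (ind S) u / R ^ 4 + B' / 4)) ≤
      (C + 2) * K ^ 4 * (one (ind S) u *
      ((kin u + pair u + one (pot X Z) u) / R ^ 2 + one (ind S) u / R ^ 4 + B1)) := by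
    apply mul_le_mul_of_nonneg_left _ hKK
    apply mul_le_mul_of_nonneg_left _ ν0
    linarith
  nlinarith [g1, ρ0]

end Pool.Agent.Helper95.PW
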